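import Mathlib
import Pool.Agent.H84.MagDefs
import Pool.Agent.H84.MagEx

set_option autoImplicit false

namespace Pool.Agent.Results.MP_17ecd9_gt.Counter

open Pool.Agent.H84.MagDefs

theorem result : ∃ T : Set L1, Tractable T ∧ ¬ ContFin T ∧ ¬ ContCmp T :=
  ⟨Pool.Agent.H84.MagEx.T, Pool.Agent.H84.MagEx.tract, Pool.Agent.H84.MagEx.not_fin,
    Pool.Agent.H84.MagEx.not_cmp⟩

end Pool.Agent.Results.MP_17ecd9_gt.Counter
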